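import Mathlib

set_option autoImplicit false

namespace TH171.Disk

open Finset

/-- number of functions with two prescribed values and the others of `S` in a small set -/
theorem card_pi_le {V : Type} [Fintype V] [DecidableEq V] {n k τ : ℕ} (S : Finset (Fin n))
    (hS : S.card = k + 1) (a b : Fin n) (ha : a ∈ S) (hb : b ∈ S) (hab : a ≠ b) (u v : V)
    (A : Finset V) (hA : A.card ≤ τ) :
    (univ.filter fun f : Fin n → V => f a = u ∧ f b = v ∧ ∀ i ∈ S, i ≠ a → i ≠ b → f i ∈ A).card
      ≤ τ ^ (k - 1) * Fintype.card V ^ (n - (k + 1)) := by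
  classical
  have h1 : (univ.filter fun f : Fin n → V =>
      f a = u ∧ f b = v ∧ ∀ i ∈ S, i ≠ a → i ≠ b → f i ∈ A) ⊆
      Fintype.piFinset (fun i => if i = a then {u} else if i = b then {v} else
        if i ∈ S then A else univ) := by
    intro f hf
    simp only [mem_filter, mem_univ, true_and] at hf
    rw [Fintype.mem_piFinset]
    intro i
    by_cases h : i = a
    · subst h; simp [hf.1]
    · by_cases h' : i = b
      · subst h'; simp [hf.2.1, h]
      · by_cases h'' : i ∈ S
        · simpa [h, h', h''] using hf.2.2 i h'' h h'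
        · simp [h, h', h'']
  refine (card_le_card h1).trans ?_
  rw [Fintype.card_piFinset]
  calc ∏ i, (if i = a then ({u} : Finset V) else if i = b then {v} else
        if i ∈ S then A else univ).card
      ≤ ∏ i, (if i ∈ S then (if i = a ∨ i = b then 1 else τ) else Fintype.card V) := by
        refine Finset.prod_le_prod' fun i _ => ?_
        by_cases h : i = a
        · subst h; simp [ha]
        · by_cases h' : i = b
          · subst h'; simp [hb, h]
          · by_cases h'' : i ∈ S
            · simpa [h, h', h''] using hA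
            · simp [h, h', h'', Finset.card_univ]
    _ = τ ^ (k - 1) * Fintype.card V ^ (n - (k + 1)) := by
        rw [Finset.prod_ite, Finset.prod_const]
        have h2 : (univ.filter fun i : Fin n => ¬ i ∈ S).card = n - (k + 1) := by
          have : (univ.filter fun i : Fin n => ¬ i ∈ S) = Sᶜ := by ext; simp
          rw [this, card_compl, Fintype.card_fin, hS]
        rw [h2]
        congr 1
        have h3 : (univ.filter fun i : Fin n => i ∈ S) = S := by ext; simp
        rw [h3, Finset.prod_ite, Finset.prod_const_one, one_mul, Finset.prod_const]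
        congr 1
        have h4 : (S.filter fun i => ¬ (i = a ∨ i = b)) = S \ {a, b} := by
          ext i; simp
        rw [h4, card_sdiff_of_subset, card_pair hab, hS]
        · omega
        · intro x hx
          rcases mem_insert.1 hx with rfl | hx
          · exact ha
          · rw [mem_singleton] at hx; subst hx; exact hb

/-- `S` is bad for `f`. -/
def BadFun {V : Type} {n : ℕ} (T : V → V → Finset V) (f : Fin n → V) (S : Finset (Fin n)) : Prop :=
  ∃ a ∈ S, ∃ b ∈ S, a ≠ b ∧ ∀ i ∈ S, i ≠ a → i ≠ b → f i ∈ T (f a) (f b)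

open Classical in
theorem card_bad_le {V : Type} [Fintype V] {n k τ : ℕ} (T : V → V → Finset V)
    (hT : ∀ u v, (T u v).card ≤ τ) (S : Finset (Fin n)) (hS : S.card = k + 1) :
    (univ.filter fun f : Fin n → V => BadFun T f S).card
      ≤ (k + 1) ^ 2 * (Fintype.card V ^ 2 * (τ ^ (k - 1) * Fintype.card V ^ (n - (k + 1)))) := by
  have h1 : (univ.filter fun f : Fin n → V => BadFun T f S) ⊆
      (S ×ˢ S).biUnion fun ab => (univ : Finset (V × V)).biUnion fun uv =>
        if ab.1 ≠ ab.2 then (univ.filter fun f : Fin n → V => f ab.1 = uv.1 ∧ f ab.2 = uv.2 ∧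
          ∀ i ∈ S, i ≠ ab.1 → i ≠ ab.2 → f i ∈ T uv.1 uv.2) else ∅ := by
    intro f hf
    simp only [mem_filter, mem_univ, true_and] at hf
    obtain ⟨a, ha, b, hb, hab, h⟩ := hf
    simp only [mem_biUnion, mem_product, mem_univ, true_and]
    refine ⟨(a, b), ⟨ha, hb⟩, (f a, f b), ?_⟩
    rw [if_pos hab]
    simp only [mem_filter, mem_univ, true_and]
    exact h
  refine (card_le_card h1).trans ?_
  refine (card_biUnion_le_card_mul _ _ (Fintype.card V ^ 2 * (τ ^ (k - 1) *
    Fintype.card V ^ (n - (k + 1)))) ?_).trans ?_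
  · rintro ⟨a, b⟩ hab
    rw [mem_product] at hab
    refine (card_biUnion_le_card_mul _ _ (τ ^ (k - 1) * Fintype.card V ^ (n - (k + 1))) ?_).trans ?_
    · rintro ⟨u, v⟩ _
      by_cases h : a ≠ b
      · rw [if_pos h]
        exact card_pi_le S hS a b hab.1 hab.2 h u v (T u v) (hT u v)
      · rw [if_neg h]
        simp
    · rw [card_univ, Fintype.card_prod, sq]
  · rw [card_product, hS, sq (k + 1)]

open Classical in
/-- the deletion method -/
theorem deletion {V : Type} [Fintype V] [Nonempty V] {n k τ : ℕ} (hk : 1 ≤ k)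
    (T : V → V → Finset V)
    (hT : ∀ u v, (T u v).card ≤ τ) (hTu : ∀ u, u ∈ T u u)
    (hN : 2 * n ^ k * (k + 1) ^ 2 * τ ^ (k - 1) ≤ Fintype.card V ^ (k - 1)) :
    ∃ P : Finset V, n ≤ 2 * k * P.card ∧
      ∀ Q ⊆ P, Q.card = k + 1 → ¬ ∃ u ∈ Q, ∃ v ∈ Q, u ≠ v ∧ ∀ q ∈ Q, q ∈ T u v := by
  set N := Fintype.card V with hNdef
  -- averaging
  have havg : ∃ f : Fin n → V,
      2 * ((powersetCard (k + 1) (univ : Finset (Fin n))).filter fun S => BadFun T f S).card ≤ n := by
    have hsum : ∑ f : Fin n → V, 2 *
        ((powersetCard (k + 1) (univ : Finset (Fin n))).filter fun S => BadFun T f S).card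
        ≤ ∑ f : Fin n → V, n := by
      simp only [card_filter]
      rw [← mul_sum, sum_comm]
      rw [sum_const, card_univ, Fintype.card_fun, Fintype.card_fin, smul_eq_mul, ← hNdef]
      by_cases hn : n < k + 1
      · rw [powersetCard_eq_empty.2 (by rw [card_univ, Fintype.card_fin]; exact hn)]
        simp
      · push Not at hn
        have h1 : ∀ S ∈ powersetCard (k + 1) (univ : Finset (Fin n)),
            (∑ f : Fin n → V, if BadFun T f S then 1 else 0) ≤
              (k + 1) ^ 2 * (N ^ 2 * (τ ^ (k - 1) * N ^ (n - (k + 1)))) := by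
          intro S hS
          rw [← card_filter]
          exact card_bad_le T hT S (mem_powersetCard.1 hS).2
        have h2 := sum_le_card_nsmul _ _ _ h1
        rw [card_powersetCard, card_univ, Fintype.card_fin, smul_eq_mul] at h2
        have h3 : n.choose (k + 1) ≤ n ^ (k + 1) := Nat.choose_le_pow n (k + 1)
        have h4 : N ^ n = N ^ (k - 1) * (N ^ 2 * N ^ (n - (k + 1))) := by
          rw [← pow_add, ← pow_add]
          congr 1
          omega
        calc 2 * _ ≤ 2 * (n.choose (k + 1) *
              ((k + 1) ^ 2 * (N ^ 2 * (τ ^ (k - 1) * N ^ (n - (k + 1)))))) :=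
              Nat.mul_le_mul_left _ h2
          _ ≤ 2 * (n ^ (k + 1) *
              ((k + 1) ^ 2 * (N ^ 2 * (τ ^ (k - 1) * N ^ (n - (k + 1)))))) :=
              Nat.mul_le_mul_left _ (Nat.mul_le_mul_right _ h3)
          _ = (2 * n ^ k * (k + 1) ^ 2 * τ ^ (k - 1)) * (n * (N ^ 2 * N ^ (n - (k + 1)))) := by
              ring
          _ ≤ N ^ (k - 1) * (n * (N ^ 2 * N ^ (n - (k + 1)))) := Nat.mul_le_mul_right _ hN
          _ = N ^ n * n := by rw [h4]; ring
    obtain ⟨f, _, hf⟩ := exists_le_of_sum_le (univ_nonempty) hsum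
    exact ⟨f, hf⟩
  obtain ⟨f, hf⟩ := havg
  set B := (powersetCard (k + 1) (univ : Finset (Fin n))).filter fun S => BadFun T f S with hB
  have hne : ∀ S ∈ B, ∃ x, x ∈ S := by
    intro S hS
    rw [hB, mem_filter, mem_powersetCard] at hS
    have : 0 < S.card := by omega
    exact card_pos.1 this
  choose g hg using hne
  set R := B.attach.image fun S => g S.1 S.2 with hR
  have hRc : R.card ≤ B.card := by
    refine card_image_le.trans ?_
    rw [card_attach]
  set I := Rᶜ with hI
  have hIc : n ≤ 2 * I.card := by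
    rw [hI, card_compl, Fintype.card_fin]
    omega
  have hgood : ∀ S ⊆ I, S.card = k + 1 → ¬ BadFun T f S := by
    intro S hSI hSc hbad
    have hSB : S ∈ B := by
      rw [hB, mem_filter, mem_powersetCard]
      exact ⟨⟨subset_univ _, hSc⟩, hbad⟩
    have h1 := hSI (hg S hSB)
    rw [hI, mem_compl] at h1
    exact h1 (mem_image.2 ⟨⟨S, hSB⟩, mem_attach _ _, rfl⟩)
  refine ⟨I.image f, ?_, ?_⟩
  · have hfib : ∀ a ∈ I.image f, (I.filter fun x => f x = a).card ≤ k := by
      intro a _
      by_contra hcon
      push Not at hcon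
      obtain ⟨S, hS, hSc⟩ := exists_subset_card_eq (s := I.filter fun x => f x = a) (n := k + 1)
        (by omega)
      have h2 : 1 < S.card := by omega
      obtain ⟨x, hx, y, hy, hxy⟩ := one_lt_card.1 h2
      refine hgood S (hS.trans (filter_subset _ _)) hSc ⟨x, hx, y, hy, hxy, ?_⟩
      intro i hi _ _
      rw [(mem_filter.1 (hS hi)).2, (mem_filter.1 (hS hx)).2, (mem_filter.1 (hS hy)).2]
      exact hTu a
    have h3 := card_le_mul_card_image I k hfib
    calc n ≤ 2 * I.card := hIc
      _ ≤ 2 * (k * (I.image f).card) := Nat.mul_le_mul_left _ h3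
      _ = 2 * k * (I.image f).card := by ring
  · rintro Q hQ hQc ⟨u, hu, v, hv, huv, hq⟩
    have hpre : ∀ q ∈ Q, ∃ i ∈ I, f i = q := fun q hq => mem_image.1 (hQ hq)
    have : Nonempty (Fin n) := ⟨(hpre u hu).choose⟩
    choose! h hhI hh using hpre
    have hinj : Set.InjOn h (Q : Set V) := by
      intro x hx y hy hxy
      rw [← hh x hx, ← hh y hy, hxy]
    refine hgood (Q.image h) ?_ ?_ ?_
    · intro i hi
      obtain ⟨q, hq', rfl⟩ := mem_image.1 hi
      exact hhI q hq'
    · rw [card_image_of_injOn hinj, hQc]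
    · refine ⟨h u, mem_image_of_mem _ hu, h v, mem_image_of_mem _ hv, ?_, ?_⟩
      · intro he
        exact huv (hinj hu hv he)
      · intro i hi _ _
        obtain ⟨q, hq', rfl⟩ := mem_image.1 hi
        rw [hh q hq', hh u hu, hh v hv]
        exact hq q hq'

end TH171.Disk
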