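import Mathlib
import Pool.Agent.TH171.DiskA

set_option autoImplicit false

namespace TH171.Disk

open Finset

/-- naturals with pairwise differences at most 4 -/
theorem card_le_five (A : Finset ℕ) (h : ∀ a ∈ A, ∀ b ∈ A, a ≤ b + 4) : A.card ≤ 5 := by
  rcases A.eq_empty_or_nonempty with rfl | hA
  · simp
  · have h1 : A ⊆ Finset.Icc (A.min' hA) (A.min' hA + 4) := by
      intro a ha
      rw [mem_Icc]
      exact ⟨A.min'_le a ha, h a ha _ (A.min'_mem hA)⟩
    refine (card_le_card h1).trans ?_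
    rw [Nat.card_Icc]
    omega

/-- `q` is close to the segment `[u, v]`. -/
def Near {m : ℕ} (u v q : Fin m × Fin m) : Prop :=
  ∃ t : ℝ, 0 ≤ t ∧ t ≤ 1 ∧
    |((q.1 : ℕ) : ℝ) - (((u.1 : ℕ) : ℝ) + t * (((v.1 : ℕ) : ℝ) - ((u.1 : ℕ) : ℝ)))| ≤ 1 ∧
    |((q.2 : ℕ) : ℝ) - (((u.2 : ℕ) : ℝ) + t * (((v.2 : ℕ) : ℝ) - ((u.2 : ℕ) : ℝ)))| ≤ 1

open Classical in
/-- the grid points close to the segment `[u, v]` -/
noncomputable def nearSet (m : ℕ) (u v : Fin m × Fin m) : Finset (Fin m × Fin m) :=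
  univ.filter fun q => Near u v q

theorem self_mem (m : ℕ) (u : Fin m × Fin m) : u ∈ nearSet m u u := by
  classical
  rw [nearSet, mem_filter]
  refine ⟨mem_univ _, 0, le_refl _, zero_le_one, ?_, ?_⟩ <;> simp

/-- two points close to a flat segment with the same abscissa -/
theorem fiber_aux (x u1 v1 u2 v2 y y' t t' : ℝ) (hflat : |v2 - u2| ≤ |v1 - u1|)
    (h1 : |x - (u1 + t * (v1 - u1))| ≤ 1) (h1' : |x - (u1 + t' * (v1 - u1))| ≤ 1)
    (h2 : |y - (u2 + t * (v2 - u2))| ≤ 1) (h2' : |y' - (u2 + t' * (v2 - u2))| ≤ 1) :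
    y ≤ y' + 4 := by
  have h3 : |(t - t') * (v1 - u1)| ≤ 2 := by
    have : (t - t') * (v1 - u1) =
      (x - (u1 + t' * (v1 - u1))) - (x - (u1 + t * (v1 - u1))) := by ring
    rw [this]
    refine (abs_sub _ _).trans ?_
    linarith
  have h4 : |(t - t') * (v2 - u2)| ≤ 2 := by
    rw [abs_mul] at h3 ⊢
    exact (mul_le_mul_of_nonneg_left hflat (abs_nonneg _)).trans h3
  have h5 := abs_le.1 h4
  have h6 := abs_le.1 h2
  have h7 := abs_le.1 h2'
  nlinarith [h5.1, h5.2, h6.1, h6.2, h7.1, h7.2]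

theorem card_nearSet (m : ℕ) (u v : Fin m × Fin m) : (nearSet m u v).card ≤ 5 * m := by
  classical
  by_cases hflat : |((v.2 : ℕ) : ℝ) - ((u.2 : ℕ) : ℝ)| ≤ |((v.1 : ℕ) : ℝ) - ((u.1 : ℕ) : ℝ)|
  · have h := card_le_mul_card_image (f := Prod.fst) (nearSet m u v) 5 (by
      intro a _
      have hinj : Set.InjOn (fun q : Fin m × Fin m => (q.2 : ℕ))
          (((nearSet m u v).filter fun x => x.1 = a : Finset (Fin m × Fin m)) :
            Set (Fin m × Fin m)) := by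
        intro q hq q' hq' he
        rw [mem_coe, mem_filter] at hq hq'
        refine Prod.ext (hq.2.trans hq'.2.symm) (Fin.ext he)
      rw [← card_image_of_injOn hinj]
      refine card_le_five _ ?_
      intro y hy y' hy'
      obtain ⟨q, hq, rfl⟩ := mem_image.1 hy
      obtain ⟨q', hq', rfl⟩ := mem_image.1 hy'
      rw [mem_filter, nearSet, mem_filter] at hq hq'
      obtain ⟨⟨_, t, _, _, h1, h2⟩, h3⟩ := hq
      obtain ⟨⟨_, t', _, _, h1', h2'⟩, h3'⟩ := hq'
      rw [h3] at h1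
      rw [h3'] at h1'
      have := fiber_aux _ _ _ _ _ _ _ _ _ hflat h1 h1' h2 h2'
      exact_mod_cast this)
    refine h.trans (Nat.mul_le_mul_left _ ?_)
    exact (card_le_univ _).trans (by rw [Fintype.card_fin])
  · push Not at hflat
    have h := card_le_mul_card_image (f := Prod.snd) (nearSet m u v) 5 (by
      intro a _
      have hinj : Set.InjOn (fun q : Fin m × Fin m => (q.1 : ℕ))
          (((nearSet m u v).filter fun x => x.2 = a : Finset (Fin m × Fin m)) :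
            Set (Fin m × Fin m)) := by
        intro q hq q' hq' he
        rw [mem_coe, mem_filter] at hq hq'
        refine Prod.ext (Fin.ext he) (hq.2.trans hq'.2.symm)
      rw [← card_image_of_injOn hinj]
      refine card_le_five _ ?_
      intro y hy y' hy'
      obtain ⟨q, hq, rfl⟩ := mem_image.1 hy
      obtain ⟨q', hq', rfl⟩ := mem_image.1 hy'
      rw [mem_filter, nearSet, mem_filter] at hq hq'
      obtain ⟨⟨_, t, _, _, h1, h2⟩, h3⟩ := hq
      obtain ⟨⟨_, t', _, _, h1', h2'⟩, h3'⟩ := hq'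
      rw [h3] at h2
      rw [h3'] at h2'
      have := fiber_aux _ _ _ _ _ _ _ _ _ hflat.le h2 h2' h1 h1'
      exact_mod_cast this)
    refine h.trans (Nat.mul_le_mul_left _ ?_)
    exact (card_le_univ _).trans (by rw [Fintype.card_fin])

/-- the grid construction -/
theorem grid (k n m : ℕ) (hk : 2 ≤ k) (hm : 0 < m)
    (h : 2 * (2 * k * n) ^ k * (k + 1) ^ 2 * 5 ^ (k - 1) ≤ m ^ (k - 1)) :
    ∃ P : Finset (Fin m × Fin m), P.card = n ∧
      ∀ Q ⊆ P, Q.card = k + 1 → ¬ ∃ u ∈ Q, ∃ v ∈ Q, u ≠ v ∧ ∀ q ∈ Q, Near u v q := by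
  have : Nonempty (Fin m × Fin m) := ⟨(⟨0, hm⟩, ⟨0, hm⟩)⟩
  obtain ⟨P, hP, hQ⟩ := deletion (V := Fin m × Fin m) (n := 2 * k * n) (k := k) (τ := 5 * m)
    (by omega) (nearSet m) (card_nearSet m) (self_mem m) (by
      rw [Fintype.card_prod, Fintype.card_fin, mul_pow 5 m, mul_pow m m]
      calc 2 * (2 * k * n) ^ k * (k + 1) ^ 2 * (5 ^ (k - 1) * m ^ (k - 1))
          = (2 * (2 * k * n) ^ k * (k + 1) ^ 2 * 5 ^ (k - 1)) * m ^ (k - 1) := by ring
        _ ≤ m ^ (k - 1) * m ^ (k - 1) := Nat.mul_le_mul_right _ h)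
  have hn : n ≤ P.card := by
    have : 0 < 2 * k := by omega
    exact Nat.le_of_mul_le_mul_left hP this
  obtain ⟨P', hP', hc⟩ := exists_subset_card_eq hn
  refine ⟨P', hc, fun Q hQ' hQc => ?_⟩
  rintro ⟨u, hu, v, hv, huv, hq⟩
  classical
  refine hQ Q (hQ'.trans hP') hQc ⟨u, hu, v, hv, huv, fun q hq' => ?_⟩
  rw [nearSet, mem_filter]
  exact ⟨mem_univ _, hq q hq'⟩

end TH171.Disk
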